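import Mathlib
import Pool.Agent.K3h78.IB.A2

/-!
# The composition of two indestructible Blaschke products is indestructible

The answer to Q1 is yes. More generally, a Blaschke product composed with an indestructible Blaschke
product is a Blaschke product, and this characterises the indestructible Blaschke products.

Proof: if `B = c ∏ b_i` with Blaschke factors `b_i` and `C` is indestructible, then every `b_i ∘ C`
is a Blaschke product, so `|B (C z)| = ∏ |b_i (C z)|` is the product, over all `i` and over all zeros
`w` of `b_i ∘ C`, of the moduli of the Blaschke factors of `w`. Its partial products are bounded below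
by `|B (C z)|`, so the zeros satisfy the Blaschke condition, and `B ∘ C` has the same modulus as the
Blaschke product of these zeros. Apply this to `T ∘ B` for all automorphisms `T`.
-/

set_option autoImplicit false

open scoped ComplexConjugate

namespace K3h78.OutOfScope.Composition

/-- `B` is, on the unit disc, a Blaschke product: it is not constant, and
`B z = e ^ (i θ) z ^ m ∏ (|a n| / a n) (a n - z) / (1 - conj (a n) z)`, where `a` is a finite or
infinite sequence (indexed by a set `S` of natural numbers) in the punctured disc with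
`∑ (1 - |a n|) < ∞`. -/
def IsBlaschke (B : ℂ → ℂ) : Prop :=
  (∃ z w : ℂ, ‖z‖ < 1 ∧ ‖w‖ < 1 ∧ B z ≠ B w) ∧
  ∃ (θ : ℝ) (m : ℕ) (S : Set ℕ) (a : ℕ → ℂ), (∀ n ∈ S, a n ≠ 0 ∧ ‖a n‖ < 1) ∧
    (Summable fun n : S => 1 - ‖a n‖) ∧
    ∀ z : ℂ, ‖z‖ < 1 → ∃ p : ℂ,
      HasProd (fun n : S => (‖a n‖ : ℂ) / a n * ((a n - z) / (1 - conj (a n) * z))) p ∧
      B z = Complex.exp (θ * Complex.I) * z ^ m * p

/-- The conformal automorphism `w ↦ e ^ (i φ) (w - a) / (1 - conj a w)` of the unit disc. -/
noncomputable def aut (φ : ℝ) (a w : ℂ) : ℂ :=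
  Complex.exp (φ * Complex.I) * ((w - a) / (1 - conj a * w))

/-- `B` is an indestructible Blaschke product: `T ∘ B` is a Blaschke product for every conformal
automorphism `T` of the unit disc. -/
def Indestructible (B : ℂ → ℂ) : Prop :=
  IsBlaschke B ∧ ∀ (φ : ℝ) (a : ℂ), ‖a‖ < 1 → IsBlaschke (aut φ a ∘ B)

/-- If `B` and `C` are indestructible Blaschke products then so is `B ∘ C`. Moreover a Blaschke
product `C` is indestructible if and only if `B ∘ C` is a Blaschke product for every Blaschke
product `B`. -/
theorem result :
    (∀ B C : ℂ → ℂ, Indestructible B → Indestructible C → Indestructible (B ∘ C)) ∧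
    ∀ C : ℂ → ℂ, IsBlaschke C →
      (Indestructible C ↔ ∀ B : ℂ → ℂ, IsBlaschke B → IsBlaschke (B ∘ C)) :=
  ⟨fun B C hB hC => K3h78.IB.ind_comp (B := B) (C := C) hB hC,
    fun C hC => K3h78.IB.ind_iff (C := C) hC⟩

end K3h78.OutOfScope.Composition
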