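import Pool.Agent.K3h78.CX.A3

set_option autoImplicit false

namespace K3h78.OutOfScope.EverySeparable

/-- `T` is convex-cyclic: for some `x` the convex hull of `{T ^ n x : n ≥ 0}` is dense. -/
def ConvexCyclic {𝕜 : Type*} [RCLike 𝕜] {X : Type*} [NormedAddCommGroup X] [NormedSpace 𝕜 X]
    [NormedSpace ℝ X] (T : X →L[𝕜] X) : Prop :=
  ∃ x : X, Dense (convexHull ℝ (Set.range fun n : ℕ => (T ^ n) x))

/-- Every non-zero separable Banach space over `ℝ` or over `ℂ` carries a convex-cyclic operator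
whose square is not convex-cyclic. -/
theorem result :
    (∀ (X : Type*) [NormedAddCommGroup X] [NormedSpace ℝ X] [CompleteSpace X]
      [TopologicalSpace.SeparableSpace X] [Nontrivial X],
      ∃ S : X →L[ℝ] X, ConvexCyclic S ∧ ¬ ConvexCyclic (S ^ 2)) ∧
    (∀ (X : Type*) [NormedAddCommGroup X] [NormedSpace ℂ X] [CompleteSpace X]
      [TopologicalSpace.SeparableSpace X] [Nontrivial X],
      ∃ S : X →L[ℂ] X, ConvexCyclic S ∧ ¬ ConvexCyclic (S ^ 2)) :=
  ⟨fun X _ _ _ _ _ => K3h78.CX.real_case X, fun X _ _ _ _ _ => K3h78.CX.complex_case X⟩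

end K3h78.OutOfScope.EverySeparable
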